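import Mathlib

/-!
Project MC, statement SGL: the covariance estimates.
-/

set_option autoImplicit false

namespace Pool.Agent.Y261.MC

open MeasureTheory Filter Finset

universe u

theorem ii_of_bdd {f : ℝ → ℝ} (hf : Measurable f) (hb : ∀ v, |f v| ≤ 1) (a b : ℝ) :
    IntervalIntegrable f volume a b := by
  refine (intervalIntegrable_const (c := (1 : ℝ))).mono_fun hf.aestronglyMeasurable ?_
  filter_upwards with v
  simpa using hb v

theorem ii_bound {f : ℝ → ℝ} (hb : ∀ v, |f v| ≤ 1) (a b : ℝ) :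
    |∫ x in a..b, f x| ≤ |b - a| := by
  have := intervalIntegral.norm_integral_le_of_norm_le_const (f := f) (C := 1) (a := a) (b := b)
    (fun x _ => by simpa using hb x)
  simpa using this

/-- the regularity of the averaged covariance -/
theorem r_est {R : ℝ → ℝ} (hR : Measurable R) (hb : ∀ v, |R v| ≤ 1) {A B h h' : ℝ}
    (hA : 0 < A) (hAB : A ≤ B) (hh : 0 < h) (hh' : h ≤ h') :
    |(∫ a in A..B, R (a * h)) - ∫ a in A..B, R (a * h')| ≤ 2 * B * (h' - h) / h := by
  have h0' : 0 < h' := lt_of_lt_of_le hh hh'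
  rw [intervalIntegral.integral_comp_mul_right _ hh.ne',
    intervalIntegral.integral_comp_mul_right _ h0'.ne', smul_eq_mul, smul_eq_mul]
  have e1 : ∀ a b, IntervalIntegrable R volume a b := ii_of_bdd hR hb
  have e2 := intervalIntegral.integral_interval_sub_interval_comm (e1 (A * h) (B * h))
    (e1 (A * h') (B * h')) (e1 (A * h) (A * h'))
  have b1 := ii_bound hb (A * h) (A * h')
  have b2 := ii_bound hb (B * h) (B * h')
  have b3 := ii_bound hb (A * h') (B * h')
  rw [abs_of_nonneg (a := A * h' - A * h) (by nlinarith)] at b1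
  rw [abs_of_nonneg (a := B * h' - B * h) (by nlinarith)] at b2
  rw [abs_of_nonneg (a := B * h' - A * h') (by nlinarith)] at b3
  generalize (∫ x in A * h..B * h, R x) = P1 at *
  generalize (∫ x in A * h'..B * h', R x) = P2 at *
  generalize (∫ x in A * h..A * h', R x) = P3 at *
  generalize (∫ x in B * h..B * h', R x) = P4 at *
  have e3 : h⁻¹ * P1 - h'⁻¹ * P2 = (h * h')⁻¹ * (h' * (P3 - P4) + (h' - h) * P2) := by
    rw [← e2]
    field_simp
    ring
  have hhh : 0 < h * h' := mul_pos hh h0'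
  rw [e3, abs_mul, abs_of_pos (inv_pos.2 hhh), ← div_eq_inv_mul, div_le_div_iff₀ hhh hh]
  have c1 : |h' * (P3 - P4) + (h' - h) * P2| ≤
      h' * ((A * h' - A * h) + (B * h' - B * h)) + (h' - h) * (B * h' - A * h') := by
    refine (abs_add_le _ _).trans (add_le_add ?_ ?_)
    · rw [abs_mul, abs_of_pos h0']
      refine mul_le_mul_of_nonneg_left ?_ h0'.le
      exact (abs_sub _ _).trans (add_le_add b1 b2)
    · rw [abs_mul, abs_of_nonneg (sub_nonneg.2 hh')]
      exact mul_le_mul_of_nonneg_left b3 (sub_nonneg.2 hh')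
  calc |h' * (P3 - P4) + (h' - h) * P2| * h
      ≤ (h' * ((A * h' - A * h) + (B * h' - B * h)) + (h' - h) * (B * h' - A * h')) * h :=
        mul_le_mul_of_nonneg_right c1 hh.le
    _ = 2 * B * (h' - h) * (h * h') := by ring

section

variable {X : Type u} [MeasurableSpace X] {μ : Measure X} [IsProbabilityMeasure μ]
  {F : X → ℝ → ℝ} {R : ℝ → ℝ}

theorem meas_time (hF : Measurable (fun q : X × ℝ => F q.1 q.2)) (u : ℝ) :
    Measurable (fun z : X × ℝ => F z.1 (z.2 * u)) :=
  hF.comp (measurable_fst.prodMk (measurable_snd.mul_const u))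

theorem int_of_bdd {α : Type*} [MeasurableSpace α] {P : Measure α} [IsFiniteMeasure P] {f : α → ℝ}
    {C : ℝ} (hf : Measurable f) (hb : ∀ v, |f v| ≤ C) : Integrable f P :=
  Integrable.of_bound hf.aestronglyMeasurable C (Eventually.of_forall fun v => by simpa using hb v)

/-- the covariance -/
noncomputable def Rz (μ : Measure X) (F : X → ℝ → ℝ) (h : ℝ) : ℝ := ∫ x, F x 1 * F x (1 + h) ∂μ

theorem Rz_meas (hF : Measurable (fun q : X × ℝ => F q.1 q.2)) : Measurable (Rz μ F) := by
  have h1 : Measurable (fun q : ℝ × X => F q.2 1 * F q.2 (1 + q.1)) :=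
    (hF.comp (measurable_snd.prodMk measurable_const)).mul
      (hF.comp (measurable_snd.prodMk (measurable_const.add measurable_fst)))
  exact (h1.stronglyMeasurable.integral_prod_right (ν := μ)).measurable

theorem abs_le_one (hb : ∀ x v, 0 ≤ F x v ∧ F x v ≤ 1) (x : X) (v : ℝ) : |F x v| ≤ 1 :=
  abs_le.2 ⟨by linarith [(hb x v).1], (hb x v).2⟩

theorem Rz_le (hb : ∀ x v, 0 ≤ F x v ∧ F x v ≤ 1) (h : ℝ) : |Rz μ F h| ≤ 1 := by
  have := norm_integral_le_of_norm_le_const (μ := μ) (f := fun x => F x 1 * F x (1 + h)) (C := 1)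
    (Eventually.of_forall fun x => by
      rw [norm_mul, Real.norm_eq_abs, Real.norm_eq_abs]
      exact mul_le_one₀ (abs_le_one hb x 1) (abs_nonneg _) (abs_le_one hb x _))
  simpa [Rz] using this

theorem cov (hF : Measurable (fun q : X × ℝ => F q.1 q.2)) (hb : ∀ x v, 0 ≤ F x v ∧ F x v ≤ 1)
    (hR : ∀ v w, 1 ≤ v → v ≤ w → ∫ x, F x v * F x w ∂μ = R (w - v))
    {A B u w v : ℝ} (hA : 0 < A) (hAB : A ≤ B) (hu : 1 ≤ A * u) (huw : u < w) (hwv : w ≤ v) :
    |∫ z, F z.1 (z.2 * u) * (F z.1 (z.2 * w) - F z.1 (z.2 * v))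
      ∂(μ.prod (volume.restrict (Set.Ioc A B)))| ≤ 2 * B * (v - w) / (w - u) := by
  have hu0 : 0 < u := pos_of_mul_pos_right (lt_of_lt_of_le one_pos hu) hA.le
  have hm : Measurable (fun z : X × ℝ => F z.1 (z.2 * u) * (F z.1 (z.2 * w) - F z.1 (z.2 * v))) :=
    (meas_time hF u).mul ((meas_time hF w).sub (meas_time hF v))
  have hbd : ∀ z : X × ℝ, |F z.1 (z.2 * u) * (F z.1 (z.2 * w) - F z.1 (z.2 * v))| ≤ 1 := by
    intro z
    rw [abs_mul]
    refine mul_le_one₀ (abs_le_one hb _ _) (abs_nonneg _) ?_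
    have h1 := hb z.1 (z.2 * w)
    have h2 := hb z.1 (z.2 * v)
    rw [abs_le]
    constructor <;> linarith [h1.1, h1.2, h2.1, h2.2]
  rw [integral_prod_symm _ (int_of_bdd hm hbd)]
  have hRz : ∀ v w, 1 ≤ v → v ≤ w → ∫ x, F x v * F x w ∂μ = Rz μ F (w - v) := by
    intro v w hv hvw
    rw [hR v w hv hvw, Rz, hR 1 (1 + (w - v)) le_rfl (by linarith)]
    congr 1
    ring
  have h1 : ∫ a in Set.Ioc A B, ∫ x, F x (a * u) * (F x (a * w) - F x (a * v)) ∂μ =
      ∫ a in Set.Ioc A B, (Rz μ F (a * (w - u)) - Rz μ F (a * (v - u))) := by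
    refine setIntegral_congr_fun measurableSet_Ioc fun a ha => ?_
    have ha0 : 0 < a := hA.trans ha.1
    have h2 : 1 ≤ a * u := hu.trans (mul_le_mul_of_nonneg_right ha.1.le hu0.le)
    have hmx : ∀ s, Measurable (fun x => F x s) := fun s =>
      hF.comp (measurable_id.prodMk measurable_const)
    have hi : ∀ s t, Integrable (fun x => F x s * F x t) μ := fun s t =>
      int_of_bdd (C := 1) ((hmx s).mul (hmx t)) fun x => by
        rw [abs_mul]
        exact mul_le_one₀ (abs_le_one hb _ _) (abs_nonneg _) (abs_le_one hb _ _)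
    simp only [mul_sub]
    rw [integral_sub (hi _ _) (hi _ _), hRz _ _ h2 (mul_le_mul_of_nonneg_left huw.le ha0.le),
      hRz _ _ h2 (mul_le_mul_of_nonneg_left (huw.le.trans hwv) ha0.le)]
  rw [h1, ← intervalIntegral.integral_of_le hAB]
  have hRm := Rz_meas (μ := μ) hF
  have hRb := Rz_le (μ := μ) hb
  rw [intervalIntegral.integral_sub]
  · have := r_est hRm hRb hA hAB (sub_pos.2 huw) (sub_le_sub_right hwv u)
    rwa [sub_sub_sub_cancel_right] at this
  · exact ii_of_bdd (hRm.comp (measurable_id.mul_const _)) (fun v => hRb _) _ _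
  · exact ii_of_bdd (hRm.comp (measurable_id.mul_const _)) (fun v => hRb _) _ _

end

theorem harm_le (n : ℕ) : ∑ k ∈ range n, (1 : ℝ) / (k + 1) ≤ 2 * Real.sqrt n := by
  induction n with
  | zero => simp
  | succ n ih =>
    rw [sum_range_succ]
    have h1 : Real.sqrt n ^ 2 = n := Real.sq_sqrt (Nat.cast_nonneg n)
    have h2 : Real.sqrt ((n + 1 : ℕ) : ℝ) ^ 2 = n + 1 := by
      rw [Real.sq_sqrt (Nat.cast_nonneg _)]
      push_cast
      ring
    have h3 : 0 ≤ Real.sqrt n := Real.sqrt_nonneg _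
    have h4 : 1 ≤ Real.sqrt ((n + 1 : ℕ) : ℝ) := by
      rw [Real.one_le_sqrt]
      push_cast
      linarith [Nat.cast_nonneg (α := ℝ) n]
    have h5 : Real.sqrt n ≤ Real.sqrt ((n + 1 : ℕ) : ℝ) := Real.sqrt_le_sqrt (by push_cast; linarith)
    rw [← h2]
    generalize Real.sqrt ((n + 1 : ℕ) : ℝ) = t at *
    generalize Real.sqrt n = s at *
    have h6 : (t - s) * (t + s) = 1 := by nlinarith
    have h7 : 1 / t ^ 2 ≤ 2 * (t - s) := by
      rw [div_le_iff₀ (by positivity)]
      have h8 : 0 < t - s := by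
        rcases h5.lt_or_eq with h | h
        · linarith
        · exfalso
          rw [h] at h6
          simp at h6
      nlinarith [mul_nonneg h8.le (sub_nonneg.2 h5), mul_nonneg h8.le (by linarith : (0 : ℝ) ≤ t - 1),
        mul_nonneg (mul_nonneg h8.le (by linarith : (0 : ℝ) ≤ t)) (by linarith : (0 : ℝ) ≤ t - 1)]
    linarith

theorem sum_dist (g : ℕ → ℝ) (hg : ∀ k, 0 ≤ g k) (I : Finset ℕ) (N n : ℕ) (hI : ∀ m ∈ I, m ≤ N)
    (hn : n ≤ N) : ∑ m ∈ I, g ((n - m) + (m - n)) ≤ 2 * ∑ k ∈ range (N + 1), g k := by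
  classical
  rw [← sum_filter_add_sum_filter_not I (fun m => m ≤ n), two_mul]
  refine add_le_add ?_ ?_
  · have h1 : ∑ m ∈ I with m ≤ n, g ((n - m) + (m - n)) =
        ∑ k ∈ (I.filter (fun m => m ≤ n)).image (fun m => n - m), g k := by
      rw [sum_image]
      · refine sum_congr rfl fun m hm => ?_
        rw [Nat.sub_eq_zero_of_le (mem_filter.1 hm).2, add_zero]
      · intro a ha b hb hab
        have h2 := (mem_filter.1 ha).2
        have h3 := (mem_filter.1 hb).2
        simp only at hab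
        omega
    rw [h1]
    refine sum_le_sum_of_subset_of_nonneg ?_ fun k _ _ => hg k
    intro k hk
    obtain ⟨m, _, rfl⟩ := mem_image.1 hk
    rw [mem_range]
    omega
  · have h1 : ∑ m ∈ I with ¬ m ≤ n, g ((n - m) + (m - n)) =
        ∑ k ∈ (I.filter (fun m => ¬ m ≤ n)).image (fun m => m - n), g k := by
      rw [sum_image]
      · refine sum_congr rfl fun m hm => ?_
        rw [Nat.sub_eq_zero_of_le (le_of_not_ge (mem_filter.1 hm).2), zero_add]
      · intro a ha b hb hab
        have h2 := (mem_filter.1 ha).2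
        have h3 := (mem_filter.1 hb).2
        simp only at hab
        omega
    rw [h1]
    refine sum_le_sum_of_subset_of_nonneg ?_ fun k _ _ => hg k
    intro k hk
    obtain ⟨m, hm, rfl⟩ := mem_image.1 hk
    have h4 := hI m (mem_filter.1 hm).1
    rw [mem_range]
    omega

end Pool.Agent.Y261.MC
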