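import Mathlib
import Pool.Agent.Y261.MC.Cov

/-!
Project MC, statement SGL: the second moments.
-/

set_option autoImplicit false

namespace Pool.Agent.Y261.MC

open MeasureTheory Filter Finset

universe u

/-- the difference at the index `n` -/
def Yt {X : Type u} (F : X → ℝ → ℝ) (p : ℕ → ℝ) (n : ℕ) (t : ℝ) (z : X × ℝ) : ℝ :=
  F z.1 (z.2 * p n) - F z.1 (z.2 * (p n + t * (p (n + 1) - p n)))

/-- the averages of the differences -/
noncomputable def Wt {X : Type u} (F : X → ℝ → ℝ) (p : ℕ → ℝ) (ε : ℝ) (N : ℕ) (t : ℝ) (z : X × ℝ) : ℝ :=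
  (1 / (N : ℝ)) * ∑ n ∈ Ioc ⌊ε * N⌋₊ N, Yt F p n t z

/-- the increments at the scale `N` -/
def Inc (p : ℕ → ℝ) (ε c : ℝ) (N : ℕ) : Prop :=
  ∀ n : ℕ, ε * N ≤ n → n ≤ N →
    c * p N ≤ p n ∧ c * p N / N ≤ p (n + 1) - p n ∧ p (n + 1) - p n ≤ p N / (c * N)

theorem mem_I {ε : ℝ} {N n : ℕ} (hn : n ∈ Ioc ⌊ε * N⌋₊ N) : ε * N ≤ n ∧ n ≤ N := by
  rw [mem_Ioc] at hn
  exact ⟨((Nat.lt_floor_add_one (ε * N)).trans_le (by exact_mod_cast hn.1)).le, hn.2⟩

theorem gap {p : ℕ → ℝ} {ε c : ℝ} {N : ℕ} (hI : Inc p ε c N) {n : ℕ} (hn : n ∈ Ioc ⌊ε * N⌋₊ N)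
    (m : ℕ) (hm : n + 1 ≤ m) (hmN : m ≤ N) :
    ((m : ℝ) - n - 1) * (c * p N / N) ≤ p m - p (n + 1) := by
  induction m, hm using Nat.le_induction with
  | base => simp
  | succ m hm ih =>
    have h1 := ih (by omega)
    have h2 : m ∈ Ioc ⌊ε * N⌋₊ N := by
      rw [mem_Ioc] at hn ⊢
      omega
    have h3 := (hI m (mem_I h2).1 (mem_I h2).2).2.1
    push_cast
    linarith

section

variable {X : Type u} [MeasurableSpace X] {μ : Measure X} [IsProbabilityMeasure μ]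
  {F : X → ℝ → ℝ} {R : ℝ → ℝ} {p : ℕ → ℝ} {ε c A B : ℝ} {N : ℕ}

omit [MeasurableSpace X] in
theorem Yt_le (hb : ∀ x v, 0 ≤ F x v ∧ F x v ≤ 1) (n : ℕ) (t : ℝ) (z : X × ℝ) :
    |Yt F p n t z| ≤ 1 := by
  have h1 := hb z.1 (z.2 * p n)
  have h2 := hb z.1 (z.2 * (p n + t * (p (n + 1) - p n)))
  rw [Yt, abs_le]
  constructor <;> linarith [h1.1, h1.2, h2.1, h2.2]

omit [MeasurableSpace X] in
theorem Wt_le (hb : ∀ x v, 0 ≤ F x v ∧ F x v ≤ 1) (t : ℝ) (z : X × ℝ) :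
    |Wt F p ε N t z| ≤ 1 := by
  rw [Wt, abs_mul, abs_of_nonneg (by positivity : (0 : ℝ) ≤ 1 / N)]
  have h1 : |∑ n ∈ Ioc ⌊ε * N⌋₊ N, Yt F p n t z| ≤ N := by
    refine (abs_sum_le_sum_abs _ _).trans ?_
    refine (sum_le_sum fun n _ => Yt_le hb n t z).trans ?_
    rw [sum_const, nsmul_eq_mul, mul_one, Nat.card_Ioc]
    exact_mod_cast Nat.sub_le _ _
  rcases Nat.eq_zero_or_pos N with h0 | h0
  · subst h0
    simp
  · have : (0 : ℝ) < N := by exact_mod_cast h0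
    calc 1 / (N : ℝ) * |∑ n ∈ Ioc ⌊ε * N⌋₊ N, Yt F p n t z| ≤ 1 / (N : ℝ) * N :=
          mul_le_mul_of_nonneg_left h1 (by positivity)
      _ = 1 := by field_simp

theorem Yt_meas (hF : Measurable (fun q : X × ℝ => F q.1 q.2)) (n : ℕ) (t : ℝ) :
    Measurable (Yt F p n t) := (meas_time hF _).sub (meas_time hF _)

theorem Yt_meas' (hF : Measurable (fun q : X × ℝ => F q.1 q.2)) (n : ℕ) :
    Measurable (fun q : (X × ℝ) × ℝ => Yt F p n q.2 q.1) := by
  refine Measurable.sub ?_ ?_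
  · exact (meas_time hF _).comp measurable_fst
  · exact hF.comp ((measurable_fst.comp measurable_fst).prodMk
      ((measurable_snd.comp measurable_fst).mul (measurable_const.add (measurable_snd.mul_const _))))

theorem Wt_meas (hF : Measurable (fun q : X × ℝ => F q.1 q.2)) (t : ℝ) :
    Measurable (Wt F p ε N t) :=
  measurable_const.mul (Finset.measurable_fun_sum _ fun n _ => Yt_meas hF n t)

theorem Wt_meas' (hF : Measurable (fun q : X × ℝ => F q.1 q.2)) :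
    Measurable (fun q : (X × ℝ) × ℝ => Wt F p ε N q.2 q.1) :=
  measurable_const.mul (Finset.measurable_fun_sum _ fun n _ => Yt_meas' hF n)

/-- the constant in the bound for the covariances -/
noncomputable def C1 (B c : ℝ) : ℝ := 12 * B / c ^ 2 + 2 * B

theorem cov_Y_lt (hF : Measurable (fun q : X × ℝ => F q.1 q.2))
    (hb : ∀ x v, 0 ≤ F x v ∧ F x v ≤ 1)
    (hR : ∀ v w, 1 ≤ v → v ≤ w → ∫ x, F x v * F x w ∂μ = R (w - v))
    (hA : 0 < A) (hAB : A ≤ B) (hc : 0 < c) (hN : 1 ≤ N) (hI : Inc p ε c N) (hpN : 0 < p N)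
    (hAN : 1 ≤ A * (c * p N)) {t : ℝ} (ht : 0 ≤ t) (ht1 : t ≤ 1) {n m : ℕ}
    (hn : n ∈ Ioc ⌊ε * N⌋₊ N) (hm : m ∈ Ioc ⌊ε * N⌋₊ N) (hnm : n + 2 ≤ m) :
    |∫ z, Yt F p n t z * Yt F p m t z ∂(μ.prod (volume.restrict (Set.Ioc A B)))| ≤
      4 * B / (c ^ 2 * ((m : ℝ) - n - 1)) := by
  have hN0 : (0 : ℝ) < N := by exact_mod_cast hN
  have hB : 0 < B := hA.trans_le hAB
  have hn' := hI n (mem_I hn).1 (mem_I hn).2
  have hm' := hI m (mem_I hm).1 (mem_I hm).2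
  have hg := gap hI hn m (by omega) (mem_I hm).2
  have hk : (0 : ℝ) < (m : ℝ) - n - 1 := by
    have : ((n + 2 : ℕ) : ℝ) ≤ m := by exact_mod_cast hnm
    push_cast at this
    linarith
  have hδ : 0 < c * p N / N := by positivity
  set δ := c * p N / N with hδd
  set Δ := p N / (c * N) with hΔd
  have hΔ : 0 < Δ := by positivity
  have hln : 0 < p (n + 1) - p n := hδ.trans_le hn'.2.1
  have hlm : 0 < p (m + 1) - p m := hδ.trans_le hm'.2.1
  have hkδ : 0 < ((m : ℝ) - n - 1) * δ := mul_pos hk hδ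
  have key : ∀ u, p n ≤ u → u ≤ p (n + 1) →
      |∫ z, F z.1 (z.2 * u) * (F z.1 (z.2 * p m) - F z.1 (z.2 * (p m + t * (p (m + 1) - p m))))
        ∂(μ.prod (volume.restrict (Set.Ioc A B)))| ≤ 2 * B * Δ / (((m : ℝ) - n - 1) * δ) := by
    intro u hu1 hu2
    have h1 : 1 ≤ A * u := hAN.trans (mul_le_mul_of_nonneg_left (hn'.1.trans hu1) hA.le)
    have h2 : ((m : ℝ) - n - 1) * δ ≤ p m - u := by linarith
    have h3 : t * (p (m + 1) - p m) ≤ Δ := by
      refine le_trans ?_ hm'.2.2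
      exact mul_le_of_le_one_left hlm.le ht1
    have h0 : 0 ≤ t * (p (m + 1) - p m) := mul_nonneg ht hlm.le
    have h4 := cov hF hb hR hA hAB h1 (w := p m) (v := p m + t * (p (m + 1) - p m))
      (by linarith) (by linarith)
    refine h4.trans ?_
    have h5 : 0 < p m - u := by linarith
    rw [add_sub_cancel_left]
    refine div_le_div₀ (by positivity) ?_ hkδ h2
    exact mul_le_mul_of_nonneg_left h3 (by positivity)
  have hm1 : ∀ u, Integrable (fun z : X × ℝ => F z.1 (z.2 * u) *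
      (F z.1 (z.2 * p m) - F z.1 (z.2 * (p m + t * (p (m + 1) - p m)))))
        (μ.prod (volume.restrict (Set.Ioc A B))) := by
    intro u
    refine int_of_bdd (C := 1) ((meas_time hF u).mul (Yt_meas hF m t)) fun z => ?_
    rw [abs_mul]
    exact mul_le_one₀ (abs_le_one hb _ _) (abs_nonneg _) (Yt_le hb m t z)
  have e1 : ∫ z, Yt F p n t z * Yt F p m t z ∂(μ.prod (volume.restrict (Set.Ioc A B))) =
      (∫ z, F z.1 (z.2 * p n) *
        (F z.1 (z.2 * p m) - F z.1 (z.2 * (p m + t * (p (m + 1) - p m))))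
        ∂(μ.prod (volume.restrict (Set.Ioc A B)))) -
      ∫ z, F z.1 (z.2 * (p n + t * (p (n + 1) - p n))) *
        (F z.1 (z.2 * p m) - F z.1 (z.2 * (p m + t * (p (m + 1) - p m))))
        ∂(μ.prod (volume.restrict (Set.Ioc A B))) := by
    rw [← integral_sub (hm1 _) (hm1 _)]
    refine integral_congr_ae (Eventually.of_forall fun z => ?_)
    simp only [Yt]
    ring
  rw [e1]
  refine (abs_sub _ _).trans ?_
  have k1 := key (p n) le_rfl (by linarith)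
  have k2 := key (p n + t * (p (n + 1) - p n)) (by linarith [mul_nonneg ht hln.le])
    (by linarith [mul_le_of_le_one_left hln.le ht1])
  refine (add_le_add k1 k2).trans (le_of_eq ?_)
  rw [hδd, hΔd]
  field_simp
  ring

theorem cov_Y (hF : Measurable (fun q : X × ℝ => F q.1 q.2))
    (hb : ∀ x v, 0 ≤ F x v ∧ F x v ≤ 1)
    (hR : ∀ v w, 1 ≤ v → v ≤ w → ∫ x, F x v * F x w ∂μ = R (w - v))
    (hA : 0 < A) (hAB : A ≤ B) (hc : 0 < c) (hN : 1 ≤ N) (hI : Inc p ε c N) (hpN : 0 < p N)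
    (hAN : 1 ≤ A * (c * p N)) {t : ℝ} (ht : 0 ≤ t) (ht1 : t ≤ 1) {n m : ℕ}
    (hn : n ∈ Ioc ⌊ε * N⌋₊ N) (hm : m ∈ Ioc ⌊ε * N⌋₊ N) :
    ∫ z, Yt F p n t z * Yt F p m t z ∂(μ.prod (volume.restrict (Set.Ioc A B))) ≤
      C1 B c * (1 / ((((n - m) + (m - n) : ℕ) : ℝ) + 1)) := by
  have hB : 0 < B := hA.trans_le hAB
  have hc2 : 0 < c ^ 2 := by positivity
  have gen : ∀ {n m : ℕ}, n ∈ Ioc ⌊ε * N⌋₊ N → m ∈ Ioc ⌊ε * N⌋₊ N → n + 2 ≤ m →
      ∫ z, Yt F p n t z * Yt F p m t z ∂(μ.prod (volume.restrict (Set.Ioc A B))) ≤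
      C1 B c * (1 / (((m - n : ℕ) : ℝ) + 1)) := by
    intro n m hn hm hnm
    refine (le_abs_self _).trans ((cov_Y_lt hF hb hR hA hAB hc hN hI hpN hAN ht ht1 hn hm hnm).trans ?_)
    have h2 : ((n + 2 : ℕ) : ℝ) ≤ m := by exact_mod_cast hnm
    push_cast at h2
    rw [Nat.cast_sub (by omega), mul_one_div]
    have h3 : (0 : ℝ) < (m : ℝ) - n + 1 := by linarith
    have h4 : 4 * B / (c ^ 2 * ((m : ℝ) - n - 1)) ≤ 12 * B / c ^ 2 / ((m : ℝ) - n + 1) := by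
      rw [div_div, div_le_div_iff₀ (mul_pos hc2 (by linarith)) (mul_pos hc2 h3)]
      have h5 : 0 < B * c ^ 2 := mul_pos hB hc2
      nlinarith
    refine h4.trans ?_
    refine div_le_div_of_nonneg_right ?_ h3.le
    rw [C1]
    linarith
  rcases lt_or_ge (m + 1) n with h | h
  · have h1 : n - m + (m - n) = n - m := by omega
    rw [h1]
    have h2 : ∀ z : X × ℝ, Yt F p n t z * Yt F p m t z = Yt F p m t z * Yt F p n t z :=
      fun z => mul_comm _ _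
    simp only [h2]
    exact gen hm hn (by omega)
  rcases lt_or_ge (n + 1) m with h' | h'
  · have h1 : n - m + (m - n) = m - n := by omega
    rw [h1]
    exact gen hn hm (by omega)
  · have h1 : (((n - m) + (m - n) : ℕ) : ℝ) ≤ 1 := by
      have : n - m + (m - n) ≤ 1 := by omega
      exact_mod_cast this
    have h2 : (1 : ℝ) / 2 ≤ 1 / ((((n - m) + (m - n) : ℕ) : ℝ) + 1) := by
      refine one_div_le_one_div_of_le ?_ (by linarith)
      positivity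
    have h3 : ∫ z, Yt F p n t z * Yt F p m t z ∂(μ.prod (volume.restrict (Set.Ioc A B))) ≤ B := by
      have h4 := norm_integral_le_of_norm_le_const (μ := μ.prod (volume.restrict (Set.Ioc A B)))
        (f := fun z => Yt F p n t z * Yt F p m t z) (C := 1)
        (Eventually.of_forall fun z => by
          rw [norm_mul, Real.norm_eq_abs, Real.norm_eq_abs]
          exact mul_le_one₀ (Yt_le hb n t z) (abs_nonneg _) (Yt_le hb m t z))
      have h5 : (μ.prod (volume.restrict (Set.Ioc A B))).real Set.univ = B - A := by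
        rw [measureReal_def, ← Set.univ_prod_univ, Measure.prod_prod]
        simp [hAB]
      rw [h5, one_mul] at h4
      exact (le_abs_self _).trans (h4.trans (by linarith))
    have h6 : 2 * B ≤ C1 B c := by
      rw [C1]
      have : 0 ≤ 12 * B / c ^ 2 := by positivity
      linarith
    calc ∫ z, Yt F p n t z * Yt F p m t z ∂(μ.prod (volume.restrict (Set.Ioc A B))) ≤ B := h3
      _ = (2 * B) * (1 / 2) := by ring
      _ ≤ C1 B c * (1 / ((((n - m) + (m - n) : ℕ) : ℝ) + 1)) :=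
          mul_le_mul h6 h2 (by norm_num) (by linarith)

/-- the second moment -/
theorem mom (hF : Measurable (fun q : X × ℝ => F q.1 q.2))
    (hb : ∀ x v, 0 ≤ F x v ∧ F x v ≤ 1)
    (hR : ∀ v w, 1 ≤ v → v ≤ w → ∫ x, F x v * F x w ∂μ = R (w - v))
    (hA : 0 < A) (hAB : A ≤ B) (hc : 0 < c) (hN : 1 ≤ N) (hI : Inc p ε c N) (hpN : 0 < p N)
    (hAN : 1 ≤ A * (c * p N)) {t : ℝ} (ht : 0 ≤ t) (ht1 : t ≤ 1) :
    ∫ z, Wt F p ε N t z ^ 2 ∂(μ.prod (volume.restrict (Set.Ioc A B))) ≤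
      8 * C1 B c / Real.sqrt N := by
  have hN0 : (0 : ℝ) < N := by exact_mod_cast hN
  have hB : 0 < B := hA.trans_le hAB
  have hC : 0 ≤ C1 B c := by
    rw [C1]
    positivity
  set P := μ.prod (volume.restrict (Set.Ioc A B)) with hP
  have hi : ∀ n m, Integrable (fun z => Yt F p n t z * Yt F p m t z) P := fun n m =>
    int_of_bdd (C := 1) ((Yt_meas hF n t).mul (Yt_meas hF m t)) fun z => by
      rw [abs_mul]
      exact mul_le_one₀ (Yt_le hb n t z) (abs_nonneg _) (Yt_le hb m t z)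
  have e1 : ∫ z, Wt F p ε N t z ^ 2 ∂P = (1 / (N : ℝ)) ^ 2 *
      ∑ n ∈ Ioc ⌊ε * N⌋₊ N, ∑ m ∈ Ioc ⌊ε * N⌋₊ N, ∫ z, Yt F p n t z * Yt F p m t z ∂P := by
    have e2 : ∀ z, Wt F p ε N t z ^ 2 = (1 / (N : ℝ)) ^ 2 *
        ∑ n ∈ Ioc ⌊ε * N⌋₊ N, ∑ m ∈ Ioc ⌊ε * N⌋₊ N, Yt F p n t z * Yt F p m t z := by
      intro z
      rw [Wt, mul_pow, sq (∑ n ∈ Ioc ⌊ε * N⌋₊ N, Yt F p n t z), sum_mul_sum]
    simp only [e2]
    rw [integral_const_mul, integral_finset_sum _ fun n _ => integrable_finset_sum _ fun m _ => hi n m]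
    congr 1
    exact sum_congr rfl fun n _ => integral_finset_sum _ fun m _ => hi n m
  rw [e1]
  have e3 : ∑ n ∈ Ioc ⌊ε * N⌋₊ N, ∑ m ∈ Ioc ⌊ε * N⌋₊ N, ∫ z, Yt F p n t z * Yt F p m t z ∂P ≤
      ∑ n ∈ Ioc ⌊ε * N⌋₊ N, C1 B c * (8 * Real.sqrt N) := by
    refine sum_le_sum fun n hn => ?_
    refine (sum_le_sum fun m hm => cov_Y hF hb hR hA hAB hc hN hI hpN hAN ht ht1 hn hm).trans ?_
    rw [← mul_sum]
    refine mul_le_mul_of_nonneg_left ?_ hC
    refine (sum_dist (fun k => 1 / ((k : ℝ) + 1)) (fun k => by positivity) (Ioc ⌊ε * N⌋₊ N) N n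
      (fun m hm => (mem_I hm).2) (mem_I hn).2).trans ?_
    have h1 := harm_le (N + 1)
    have h2 : Real.sqrt ((N + 1 : ℕ) : ℝ) ≤ 2 * Real.sqrt N := by
      rw [Real.sqrt_le_left (by positivity), mul_pow, Real.sq_sqrt hN0.le]
      push_cast
      have : (1 : ℝ) ≤ N := by exact_mod_cast hN
      linarith
    linarith
  rw [sum_const, nsmul_eq_mul, Nat.card_Ioc] at e3
  have e4 : ((N - ⌊ε * N⌋₊ : ℕ) : ℝ) ≤ N := by exact_mod_cast Nat.sub_le _ _
  have e5 : ∑ n ∈ Ioc ⌊ε * N⌋₊ N, ∑ m ∈ Ioc ⌊ε * N⌋₊ N, ∫ z, Yt F p n t z * Yt F p m t z ∂P ≤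
      N * (C1 B c * (8 * Real.sqrt N)) :=
    e3.trans (mul_le_mul_of_nonneg_right e4 (by positivity))
  refine (mul_le_mul_of_nonneg_left e5 (by positivity)).trans (le_of_eq ?_)
  have h3 : Real.sqrt N * Real.sqrt N = N := Real.mul_self_sqrt hN0.le
  have h4 : Real.sqrt N ≠ 0 := (Real.sqrt_pos.2 hN0).ne'
  field_simp
  nlinarith [h3]

end

end Pool.Agent.Y261.MC
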