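import Mathlib
import Pool.Agent.Y957.MC.Spec
import Pool.Agent.Y261.MC.Mom

/-!
Project MC, statement SGL.
-/

set_option autoImplicit false

namespace Pool.Agent.Y261.MC

open MeasureTheory Filter Finset Pool.Agent.Y957.MC

universe u

/-- almost everywhere convergence from summable second moments -/
theorem ae_tendsto {α : Type*} [MeasurableSpace α] {P : Measure α} [IsFiniteMeasure P]
    {f : ℕ → α → ℝ} (hf : ∀ i, Measurable (f i)) (hb : ∀ i z, |f i z| ≤ 1) {C : ℝ}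
    (h : ∀ᶠ i : ℕ in atTop, ∫ z, f i z ^ 2 ∂P ≤ C / (i : ℝ) ^ 2) :
    ∀ᵐ z ∂P, Tendsto (fun i => f i z) atTop (nhds 0) := by
  obtain ⟨i₀, hi₀⟩ := eventually_atTop.1 h
  have hs : Summable (fun i : ℕ => C / ((i + i₀ : ℕ) : ℝ) ^ 2) := by
    have h1 : Summable (fun i : ℕ => C / (i : ℝ) ^ 2) := by
      simp_rw [div_eq_mul_inv]
      exact (Real.summable_nat_pow_inv.2 (by norm_num)).mul_left C
    exact (summable_nat_add_iff (f := fun i : ℕ => C / (i : ℝ) ^ 2) i₀).2 h1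
  have h2 : ∀ i, ∫⁻ z, ENNReal.ofReal (f (i + i₀) z ^ 2) ∂P ≤
      ENNReal.ofReal (C / ((i + i₀ : ℕ) : ℝ) ^ 2) := by
    intro i
    rw [← ofReal_integral_eq_lintegral_ofReal]
    · exact ENNReal.ofReal_le_ofReal (hi₀ _ (by omega))
    · exact int_of_bdd (C := 1) ((hf _).pow_const 2) fun z => by
        rw [abs_pow]
        exact pow_le_one₀ (abs_nonneg _) (hb _ z)
    · exact Eventually.of_forall fun z => sq_nonneg _
  have hm : ∀ i, Measurable (fun z => ENNReal.ofReal (f (i + i₀) z ^ 2)) := fun i =>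
    ((hf _).pow_const 2).ennreal_ofReal
  have h3 : ∫⁻ z, ∑' i, ENNReal.ofReal (f (i + i₀) z ^ 2) ∂P ≠ ⊤ := by
    rw [lintegral_tsum fun i => (hm i).aemeasurable]
    exact ne_top_of_le_ne_top hs.tsum_ofReal_ne_top (ENNReal.tsum_le_tsum h2)
  have h4 := ae_lt_top (Measurable.ennreal_tsum hm) h3
  filter_upwards [h4] with z hz
  have h5 := ENNReal.tendsto_atTop_zero_of_tsum_ne_top hz.ne
  have h6 := (ENNReal.tendsto_toReal ENNReal.zero_ne_top).comp h5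
  have h7 : Tendsto (fun i => f (i + i₀) z ^ 2) atTop (nhds 0) := by
    refine (h6.congr fun i => ?_)
    simp only [Function.comp_apply]
    exact ENNReal.toReal_ofReal (sq_nonneg _)
  have h8 := (Real.continuous_sqrt.tendsto 0).comp h7
  rw [← tendsto_add_atTop_iff_nat i₀, tendsto_zero_iff_abs_tendsto_zero]
  rw [Real.sqrt_zero] at h8
  refine h8.congr fun i => ?_
  simp only [Function.comp_apply, Real.sqrt_sq_eq_abs]

/-- the positivity and the growth -/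
theorem good_tendsto {p : ℕ → ℝ} (hp : Good p) : Tendsto p atTop atTop := by
  obtain ⟨c, hc, h⟩ := hp.low
  exact tendsto_atTop_mono' _ h ((tendsto_rpow_atTop hc).comp tendsto_natCast_atTop_atTop)

section

variable {X : Type u} [MeasurableSpace X] {μ : Measure X} [IsProbabilityMeasure μ]
  {F : X → ℝ → ℝ} {R : ℝ → ℝ} {p : ℕ → ℝ} {ε c A B : ℝ}

theorem tends_t (hp : Good p) (hF : Measurable (fun q : X × ℝ => F q.1 q.2))
    (hb : ∀ x v, 0 ≤ F x v ∧ F x v ≤ 1)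
    (hR : ∀ v w, 1 ≤ v → v ≤ w → ∫ x, F x v * F x w ∂μ = R (w - v))
    (hA : 0 < A) (hAB : A ≤ B) (hc : 0 < c) (hI : ∀ᶠ N in atTop, Inc p ε c N)
    {t : ℝ} (ht : 0 ≤ t) (ht1 : t ≤ 1) :
    ∀ᵐ z ∂(μ.prod (volume.restrict (Set.Ioc A B))),
      Tendsto (fun i : ℕ => Wt F p ε (i ^ 4) t z) atTop (nhds 0) := by
  have h4 : Tendsto (fun i : ℕ => i ^ 4) atTop atTop := tendsto_pow_atTop (by norm_num)
  refine ae_tendsto (C := 8 * C1 B c) (fun i => Wt_meas hF t) (fun i z => Wt_le hb t z) ?_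
  have hpt := good_tendsto hp
  have h5 : ∀ᶠ N : ℕ in atTop, 1 / (A * c) ≤ p N := hpt.eventually_ge_atTop _
  have h6 : ∀ᶠ N : ℕ in atTop, 0 < p N := hpt.eventually_gt_atTop _
  filter_upwards [h4.eventually hI, h4.eventually h5, h4.eventually h6,
    h4.eventually (eventually_ge_atTop 1)] with i i1 i2 i3 i4
  have hAN : 1 ≤ A * (c * p (i ^ 4)) := by
    rw [div_le_iff₀ (by positivity)] at i2
    linarith
  refine (mom hF hb hR hA hAB hc i4 i1 i3 hAN ht ht1).trans (le_of_eq ?_)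
  congr 1
  push_cast
  rw [show (i : ℝ) ^ 4 = ((i : ℝ) ^ 2) ^ 2 by ring, Real.sqrt_sq (by positivity)]

theorem tends_int (hp : Good p) (hF : Measurable (fun q : X × ℝ => F q.1 q.2))
    (hb : ∀ x v, 0 ≤ F x v ∧ F x v ≤ 1)
    (hR : ∀ v w, 1 ≤ v → v ≤ w → ∫ x, F x v * F x w ∂μ = R (w - v))
    (hA : 0 < A) (hAB : A ≤ B) (hc : 0 < c) (hI : ∀ᶠ N in atTop, Inc p ε c N) :
    ∀ᵐ z ∂(μ.prod (volume.restrict (Set.Ioc A B))),
      Tendsto (fun i : ℕ => ∫ t in Set.Ioc (0 : ℝ) 1, Wt F p ε (i ^ 4) t z) atTop (nhds 0) := by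
  have hms : MeasurableSet {q : (X × ℝ) × ℝ |
      (fun z t => Tendsto (fun i : ℕ => Wt F p ε (i ^ 4) t z) atTop (nhds 0)) q.1 q.2} :=
    measurableSet_tendsto (nhds 0) fun i => Wt_meas' (p := p) (ε := ε) (N := i ^ 4) hF
  have h1 : ∀ᵐ z ∂(μ.prod (volume.restrict (Set.Ioc A B))),
      ∀ᵐ t ∂(volume.restrict (Set.Ioc (0 : ℝ) 1)),
        Tendsto (fun i : ℕ => Wt F p ε (i ^ 4) t z) atTop (nhds 0) := by
    rw [Measure.ae_ae_comm hms]
    rw [ae_restrict_iff' measurableSet_Ioc]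
    exact Eventually.of_forall fun t ht => tends_t hp hF hb hR hA hAB hc hI ht.1.le ht.2
  filter_upwards [h1] with z hz
  have h2 := tendsto_integral_of_dominated_convergence (μ := volume.restrict (Set.Ioc (0 : ℝ) 1))
    (F := fun (i : ℕ) t => Wt F p ε (i ^ 4) t z) (f := fun _ => (0 : ℝ)) (fun _ => 1)
    (fun i => ((Wt_meas' (p := p) (ε := ε) (N := i ^ 4) hF).comp
      (measurable_const.prodMk measurable_id)).aestronglyMeasurable)
    (integrable_const _) (fun i => Eventually.of_forall fun t => Wt_le hb t z) hz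
  simpa using h2

end

/-- the averages over intervals -/
noncomputable def Sav (f : ℝ → ℝ) (p : ℕ → ℝ) (ε a : ℝ) (N : ℕ) : ℝ :=
  (1 / (N : ℝ)) * ∑ n ∈ Ioc ⌊ε * N⌋₊ N, ∫ t in (0 : ℝ)..1, f (a * (p n + t * (p (n + 1) - p n)))

theorem int_W {X : Type u} [MeasurableSpace X] {F : X → ℝ → ℝ} {p : ℕ → ℝ} {ε : ℝ} {N : ℕ}
    (hF : Measurable (fun q : X × ℝ => F q.1 q.2)) (hb : ∀ x v, 0 ≤ F x v ∧ F x v ≤ 1)
    (x : X) (a : ℝ) :
    ∫ t in Set.Ioc (0 : ℝ) 1, Wt F p ε N t (x, a) =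
      (1 / (N : ℝ)) * ∑ n ∈ Ioc ⌊ε * N⌋₊ N, F x (a * p n) - Sav (F x) p ε a N := by
  rw [← intervalIntegral.integral_of_le zero_le_one, Sav, ← mul_sub, ← sum_sub_distrib]
  simp only [Wt]
  rw [intervalIntegral.integral_const_mul]
  have hx : Measurable (F x) := hF.comp (measurable_const.prodMk measurable_id)
  have hi : ∀ n, IntervalIntegrable (fun t => F x (a * (p n + t * (p (n + 1) - p n)))) volume 0 1 :=
    fun n => ii_of_bdd (hx.comp (measurable_const.mul (measurable_const.add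
      (measurable_id.mul_const _)))) (fun t => abs_le_one hb _ _) _ _
  rw [intervalIntegral.integral_finset_sum]
  · congr 1
    refine sum_congr rfl fun n _ => ?_
    simp only [Yt]
    rw [intervalIntegral.integral_sub intervalIntegrable_const (hi n)]
    simp
  · intro n _
    simp only [Yt]
    exact intervalIntegrable_const.sub (hi n)

/-- the averages over intervals are controlled -/
theorem Sav_le {f : ℝ → ℝ} {p : ℕ → ℝ} {ε c a L : ℝ} (hp : Tendsto p atTop atTop)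
    (hf : Measurable f) (hb : ∀ v, 0 ≤ f v ∧ f v ≤ 1) (ha : 0 < a) (hε : 0 < ε) (hε1 : ε < 1) (hc : 0 < c)
    (hI : ∀ᶠ N in atTop, Inc p ε c N)
    (hL : ∀ᶠ V : ℝ in atTop, (1 / V) * ∫ v in (0 : ℝ)..V, f v ≤ L) :
    ∀ᶠ N in atTop, Sav f p ε a N ≤ 2 * L / c := by
  have hfi : ∀ a b, IntervalIntegrable f volume a b := ii_of_bdd hf fun v =>
    abs_le.2 ⟨by linarith [(hb v).1], (hb v).2⟩
  have hpos : ∀ {a b : ℝ}, a ≤ b → 0 ≤ ∫ v in a..b, f v := fun hab =>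
    intervalIntegral.integral_nonneg hab fun v _ => (hb v).1
  have hV : Tendsto (fun N : ℕ => a * p (N + 1)) atTop atTop :=
    (hp.comp (tendsto_add_atTop_nat 1)).const_mul_atTop ha
  have hcN : ∀ᶠ N : ℕ in atTop, 1 / c ≤ (N : ℝ) :=
    tendsto_natCast_atTop_atTop.eventually_ge_atTop _
  filter_upwards [hI, hV.eventually hL, hp.eventually_gt_atTop 0, eventually_ge_atTop 1, hcN,
    hV.eventually_gt_atTop 0] with N hIN hLN hpN hN1 hcN hVN
  have hN0 : (0 : ℝ) < N := by exact_mod_cast hN1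
  have hlN := hIN N (by nlinarith) le_rfl
  have hcN1 : 1 ≤ c * N := by
    rw [div_le_iff₀ hc] at hcN
    linarith
  have hpN1 : p (N + 1) ≤ 2 * p N := by
    have h1 : p N / (c * N) ≤ p N := div_le_self hpN.le hcN1
    linarith [hlN.2.2]
  have hacp : 0 < a * (c * p N / N) := by positivity
  -- each term
  have h1 : ∀ n ∈ Ioc ⌊ε * N⌋₊ N, ∫ t in (0 : ℝ)..1, f (a * (p n + t * (p (n + 1) - p n))) ≤
      (1 / (a * (c * p N / N))) * ∫ v in a * p n..a * p (n + 1), f v := by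
    intro n hn
    have hn' := hIN n (mem_I hn).1 (mem_I hn).2
    have hl : 0 < p (n + 1) - p n := lt_of_lt_of_le (by positivity) hn'.2.1
    have e1 : ∀ t, a * (p n + t * (p (n + 1) - p n)) = (a * (p (n + 1) - p n)) * t + a * p n := by
      intro t
      ring
    simp only [e1]
    rw [intervalIntegral.integral_comp_mul_add f (mul_pos ha hl).ne', smul_eq_mul]
    have e2 : a * (p (n + 1) - p n) * 1 + a * p n = a * p (n + 1) := by ring
    rw [mul_zero, zero_add, e2, ← one_div]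
    refine mul_le_mul_of_nonneg_right ?_ (hpos (mul_le_mul_of_nonneg_left (by linarith) ha.le))
    exact one_div_le_one_div_of_le hacp (mul_le_mul_of_nonneg_left hn'.2.1 ha.le)
  have hM : ⌊ε * N⌋₊ < N := by
    rw [Nat.floor_lt (by positivity)]
    nlinarith
  have h2 : ∑ n ∈ Ioc ⌊ε * N⌋₊ N, ∫ v in a * p n..a * p (n + 1), f v =
      ∫ v in a * p (⌊ε * N⌋₊ + 1)..a * p (N + 1), f v := by
    have e3 : Ioc ⌊ε * N⌋₊ N = Ico (⌊ε * N⌋₊ + 1) (N + 1) := by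
      ext n
      simp only [mem_Ioc, mem_Ico]
      omega
    rw [e3]
    exact intervalIntegral.sum_integral_adjacent_intervals_Ico (f := f) (a := fun n => a * p n)
      (by omega) fun k _ => hfi _ _
  have h3 : ∫ v in a * p (⌊ε * N⌋₊ + 1)..a * p (N + 1), f v ≤ ∫ v in (0 : ℝ)..a * p (N + 1), f v := by
    rw [← intervalIntegral.integral_add_adjacent_intervals (hfi 0 (a * p (⌊ε * N⌋₊ + 1)))
      (hfi _ (a * p (N + 1)))]
    have h4 : ⌊ε * N⌋₊ + 1 ∈ Ioc ⌊ε * N⌋₊ N := by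
      rw [mem_Ioc]
      omega
    have h5 := (hIN _ (mem_I h4).1 (mem_I h4).2).1
    have h6 : 0 ≤ a * p (⌊ε * N⌋₊ + 1) := mul_nonneg ha.le ((mul_pos hc hpN).le.trans h5)
    linarith [hpos h6]
  have hint : 0 ≤ ∫ v in (0 : ℝ)..a * p (N + 1), f v := hpos hVN.le
  have hL0 : 0 ≤ L := le_trans (by positivity) hLN
  have h7 : ∫ v in (0 : ℝ)..a * p (N + 1), f v ≤ L * (a * (2 * p N)) := by
    have h8 : ∫ v in (0 : ℝ)..a * p (N + 1), f v ≤ L * (a * p (N + 1)) := by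
      rw [one_div, inv_mul_le_iff₀ hVN] at hLN
      linarith
    refine h8.trans (mul_le_mul_of_nonneg_left (mul_le_mul_of_nonneg_left hpN1 ha.le) hL0)
  calc Sav f p ε a N ≤ (1 / (N : ℝ)) * ∑ n ∈ Ioc ⌊ε * N⌋₊ N,
        (1 / (a * (c * p N / N))) * ∫ v in a * p n..a * p (n + 1), f v :=
        mul_le_mul_of_nonneg_left (sum_le_sum h1) (by positivity)
    _ = (1 / (N : ℝ)) * ((1 / (a * (c * p N / N))) *
        ∫ v in a * p (⌊ε * N⌋₊ + 1)..a * p (N + 1), f v) := by rw [← mul_sum, h2]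
    _ ≤ (1 / (N : ℝ)) * ((1 / (a * (c * p N / N))) * (L * (a * (2 * p N)))) :=
        mul_le_mul_of_nonneg_left (mul_le_mul_of_nonneg_left (h3.trans h7) (by positivity))
          (by positivity)
    _ = 2 * L / c := by field_simp

/-- interpolation between fourth powers -/
theorem interp {b : ℕ → ℝ} (hb : ∀ n, 0 ≤ b n) {κ : ℝ}
    (h : ∀ᶠ i : ℕ in atTop, (1 / ((i ^ 4 : ℕ) : ℝ)) * ∑ n ∈ Icc 1 (i ^ 4), b n ≤ κ) :
    ∀ᶠ N : ℕ in atTop, (1 / (N : ℝ)) * ∑ n ∈ Icc 1 N, b n ≤ 16 * κ := by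
  classical
  obtain ⟨i₀, hi₀⟩ := eventually_atTop.1 h
  filter_upwards [eventually_ge_atTop ((i₀ + 1) ^ 4)] with N hN
  have hex : ∃ k : ℕ, N < k ^ 4 := ⟨N + 1, lt_of_lt_of_le (Nat.lt_succ_self N)
    (Nat.le_self_pow (by norm_num) _)⟩
  have h1 := Nat.find_spec hex
  have h2 : Nat.find hex ≠ 0 := by
    intro h0
    rw [h0] at h1
    simp at h1
  obtain ⟨i, hi⟩ := Nat.exists_eq_succ_of_ne_zero h2
  have h3 : i ^ 4 ≤ N := not_lt.1 (Nat.find_min hex (m := i) (by omega))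
  rw [hi] at h1
  have h4 : i₀ + 1 < i + 1 := lt_of_pow_lt_pow_left₀ 4 (by omega) (hN.trans_lt h1)
  have hi1 : 1 ≤ i := by omega
  have h5 := hi₀ (i + 1) (by omega)
  have hN0 : (0 : ℝ) < N := by
    have : 1 ≤ i ^ 4 := Nat.one_le_pow _ _ hi1
    exact_mod_cast (by omega : 0 < N)
  have h6 : ∑ n ∈ Icc 1 N, b n ≤ ∑ n ∈ Icc 1 ((i + 1) ^ 4), b n :=
    sum_le_sum_of_subset_of_nonneg (Icc_subset_Icc_right h1.le) fun n _ _ => hb n
  have h7 : (((i + 1) ^ 4 : ℕ) : ℝ) ≤ 16 * N := by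
    have h8 : (i + 1) ^ 4 ≤ (2 * i) ^ 4 := Nat.pow_le_pow_left (by omega) 4
    have h9 : (i + 1) ^ 4 ≤ 16 * N := by
      rw [mul_pow] at h8
      omega
    exact_mod_cast h9
  have h10 : (0 : ℝ) < (((i + 1) ^ 4 : ℕ) : ℝ) := by positivity
  have hs0 : 0 ≤ ∑ n ∈ Icc 1 ((i + 1) ^ 4), b n := sum_nonneg fun n _ => hb n
  have hκ : 0 ≤ κ := le_trans (by positivity) h5
  have h11 : ∑ n ∈ Icc 1 ((i + 1) ^ 4), b n ≤ κ * (((i + 1) ^ 4 : ℕ) : ℝ) := by
    rw [one_div, inv_mul_le_iff₀ h10] at h5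
    linarith
  rw [one_div, inv_mul_le_iff₀ hN0]
  calc ∑ n ∈ Icc 1 N, b n ≤ κ * (((i + 1) ^ 4 : ℕ) : ℝ) := h6.trans h11
    _ ≤ κ * (16 * N) := mul_le_mul_of_nonneg_left h7 hκ
    _ = N * (16 * κ) := by ring

/-- (SGL) -/
theorem sgl : S_SGL.{u} := by
  intro p hp
  have hpt := good_tendsto hp
  have hj : ∀ j : ℕ, (0 : ℝ) < 1 / ((j : ℝ) + 2) := fun j => by positivity
  have hj1 : ∀ j : ℕ, 1 / ((j : ℝ) + 2) < 1 := fun j => by
    rw [div_lt_one (by positivity)]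
    linarith [Nat.cast_nonneg (α := ℝ) j]
  choose c hc hI using fun j : ℕ => hp.inc (1 / ((j : ℝ) + 2)) (hj j)
  have hI' : ∀ j : ℕ, ∀ᶠ N in atTop, Inc p (1 / ((j : ℝ) + 2)) (c j) N := hI
  refine ⟨fun ε => 32 / c ⌈32 / ε⌉₊, fun ε => div_pos (by norm_num) (hc _), ?_⟩
  intro X _ μ _ F R hF hb hR
  have h1 : ∀ᵐ x ∂μ, ∀ q : ℕ × ℕ, ∀ᵐ a ∂(volume.restrict (Set.Ioc (1 / ((q.2 : ℝ) + 1)) ((q.2 : ℝ) + 1))),
      Tendsto (fun i : ℕ => ∫ t in Set.Ioc (0 : ℝ) 1, Wt F p (1 / ((q.1 : ℝ) + 2)) (i ^ 4) t (x, a))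
        atTop (nhds 0) := by
    rw [ae_all_iff]
    rintro ⟨j, k⟩
    refine Measure.ae_ae_of_ae_prod (tends_int hp hF hb hR (by positivity) ?_ (hc j) (hI' j))
    have hk : (0 : ℝ) ≤ k := Nat.cast_nonneg k
    rw [div_le_iff₀ (by positivity)]
    nlinarith
  filter_upwards [h1] with x hx
  have h2 : ∀ᵐ a ∂(volume.restrict (Set.Ioi (0 : ℝ))), ∀ j : ℕ,
      Tendsto (fun i : ℕ => ∫ t in Set.Ioc (0 : ℝ) 1, Wt F p (1 / ((j : ℝ) + 2)) (i ^ 4) t (x, a))
        atTop (nhds 0) := by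
    rw [ae_all_iff]
    intro j
    have h3 : Set.Ioi (0 : ℝ) ⊆ ⋃ k : ℕ, Set.Ioc (1 / ((k : ℝ) + 1)) ((k : ℝ) + 1) := by
      intro a ha
      have ha0 : (0 : ℝ) < a := ha
      obtain ⟨k, hk⟩ := exists_nat_gt (max (1 / a) a)
      rw [max_lt_iff] at hk
      refine Set.mem_iUnion.2 ⟨k, ?_, by linarith [hk.2]⟩
      have hk0 : (0 : ℝ) ≤ k := Nat.cast_nonneg k
      have h4 := hk.1
      rw [div_lt_iff₀ ha0] at h4
      rw [div_lt_iff₀ (by positivity)]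
      nlinarith
    refine ae_restrict_of_ae_restrict_of_subset h3 ?_
    rw [ae_restrict_iUnion_iff]
    exact fun k => hx (j, k)
  have h2' := ae_restrict_mem (μ := volume) (measurableSet_Ioi (a := (0 : ℝ)))
  filter_upwards [h2, h2'] with a ha ha0
  intro ε L hε hL
  have ha0 : (0 : ℝ) < a := ha0
  have hxm : Measurable (F x) := hF.comp (measurable_const.prodMk measurable_id)
  set j := ⌈32 / ε⌉₊ with hjd
  have hεj : 1 / ((j : ℝ) + 2) ≤ ε / 32 := by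
    have h5 : 32 / ε ≤ j := Nat.le_ceil _
    rw [div_le_iff₀ hε] at h5
    rw [div_le_div_iff₀ (by positivity) (by norm_num)]
    nlinarith
  have h4 : Tendsto (fun i : ℕ => i ^ 4) atTop atTop := tendsto_pow_atTop (by norm_num)
  have hS := Sav_le hpt hxm (hb x) ha0 (hj j) (hj1 j) (hc j) (hI' j) hL
  have h5 : ∀ᶠ i : ℕ in atTop, (1 / ((i ^ 4 : ℕ) : ℝ)) * ∑ n ∈ Icc 1 (i ^ 4), F x (a * p n) ≤
      ε / 16 + 2 * L / c j := by
    filter_upwards [h4.eventually hS, (ha j).eventually_lt_const (by positivity : (0 : ℝ) < ε / 32),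
      h4.eventually (eventually_ge_atTop 1)] with i i1 i2 i3
    rw [int_W hF hb x a] at i2
    generalize i ^ 4 = N at *
    have hN0 : (0 : ℝ) < N := by exact_mod_cast i3
    set ε' := 1 / ((j : ℝ) + 2) with hε'
    have hMN : ⌊ε' * N⌋₊ ≤ N := by
      have : ⌊ε' * N⌋₊ < N := by
        rw [Nat.floor_lt (mul_pos (hj j) hN0).le]
        nlinarith [hj1 j]
      exact this.le
    have e1 : Icc 1 N = Ioc 0 N := rfl
    have e2 : ∑ n ∈ Icc 1 N, F x (a * p n) = ∑ n ∈ Ioc 0 ⌊ε' * N⌋₊, F x (a * p n) +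
        ∑ n ∈ Ioc ⌊ε' * N⌋₊ N, F x (a * p n) := by
      rw [e1, ← Finset.sum_Ioc_consecutive _ (Nat.zero_le _) hMN]
    have e3 : ∑ n ∈ Ioc 0 ⌊ε' * N⌋₊, F x (a * p n) ≤ ε' * N := by
      refine (sum_le_sum fun n _ => (hb x (a * p n)).2).trans ?_
      rw [sum_const, Nat.card_Ioc, nsmul_eq_mul, mul_one, Nat.sub_zero]
      exact Nat.floor_le (mul_pos (hj j) hN0).le
    have e4 : (1 / (N : ℝ)) * ∑ n ∈ Ioc 0 ⌊ε' * N⌋₊, F x (a * p n) ≤ ε' := by
      rw [one_div, inv_mul_le_iff₀ hN0]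
      linarith
    rw [e2, mul_add]
    linarith
  have h6 := interp (b := fun n => F x (a * p n)) (fun n => (hb x _).1) h5
  filter_upwards [h6] with N hN
  refine hN.trans (le_of_eq ?_)
  ring

end Pool.Agent.Y261.MC
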